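import Mathlib
import Pool.Agent.W757.QR.St

set_option autoImplicit false

open Topology Filter Metric Set Polynomial MeasureTheory

namespace Pool.Agent.W40.RQAF

open Pool.Agent.W757.QR

theorem af_det (a : ℂ) :
    ((ContinuousLinearMap.toSpanSingleton ℂ a).restrictScalars ℝ : ℂ →L[ℝ] ℂ).det = ‖a‖ ^ 2 := by
  rw [ContinuousLinearMap.det, ← LinearMap.det_toMatrix Complex.basisOneI, Matrix.det_fin_two]
  simp [LinearMap.toMatrix_apply, Complex.basisOneI, Complex.sq_norm, Complex.normSq_apply]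

theorem Q_ne {d : ℕ} {P Q : ℂ[X]} (h : RM d P Q) : Q ≠ 0 := by
  rintro rfl
  obtain ⟨h2, hc, hm⟩ := h
  have h1 : IsUnit P := isCoprime_zero_right.1 hc
  have h3 := natDegree_eq_zero_of_isUnit h1
  rw [h3] at hm
  simp at hm
  omega

theorem af_ne {d : ℕ} {P Q : ℂ[X]} (h : RM d P Q) (w : ℂ) : P - C w * Q ≠ 0 := by
  intro h0
  have h1 : P = C w * Q := sub_eq_zero.mp h0
  obtain ⟨h2, hc, hm⟩ := h
  have h3 : IsUnit Q := by
    apply hc.isUnit_of_dvd'
    · rw [h1]; exact dvd_mul_left _ _
    · exact dvd_rfl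
  have h4 := natDegree_eq_zero_of_isUnit h3
  have h5 : P.natDegree = 0 := by
    have : P.natDegree ≤ (C w).natDegree + Q.natDegree := by
      rw [h1]; exact natDegree_mul_le
    rw [natDegree_C, h4] at this
    omega
  rw [h4, h5] at hm
  simp at hm
  omega

theorem af_mem {d : ℕ} {P Q : ℂ[X]} (h : RM d P Q) (w ζ : ℂ) :
    ζ ∈ pre P Q w ↔ Q.eval ζ ≠ 0 ∧ fr P Q ζ = w := by
  unfold pre
  rw [Multiset.mem_toFinset, mem_roots (af_ne h w), IsRoot.def, eval_sub, eval_mul, eval_C,
    sub_eq_zero]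
  constructor
  · intro h1
    have hq : Q.eval ζ ≠ 0 := by
      intro hq
      rw [hq, mul_zero] at h1
      obtain ⟨a, b, hab⟩ := h.2.1
      have := congrArg (eval ζ) hab
      rw [eval_add, eval_mul, eval_mul, h1, hq] at this
      simp at this
    refine ⟨hq, ?_⟩
    unfold fr
    rw [h1]
    field_simp
  · rintro ⟨hq, h1⟩
    unfold fr at h1
    rw [← h1]
    field_simp

theorem has_deriv {P Q : ℂ[X]} {z : ℂ} (hz : Q.eval z ≠ 0) :
    HasStrictDerivAt (fr P Q) (d1 P Q z) z := by
  have h1 := (P.hasStrictDerivAt z).div (Q.hasStrictDerivAt z) hz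
  have e : d1 P Q z = ((derivative P).eval z * Q.eval z - P.eval z * (derivative Q).eval z) /
      Q.eval z ^ 2 := by
    unfold d1 wn
    rw [eval_sub, eval_mul, eval_mul]
  rw [e]
  exact h1

theorem af_fd (P Q : ℂ[X]) (s : Set ℂ) {x : ℂ} (hx : Q.eval x ≠ 0) :
    HasFDerivWithinAt (fr P Q) ((ContinuousLinearMap.toSpanSingleton ℂ
      (d1 P Q x)).restrictScalars ℝ : ℂ →L[ℝ] ℂ) s x := by
  have h := (has_deriv (P := P) hx).hasDerivAt.hasFDerivAt
  exact (h.restrictScalars ℝ).hasFDerivWithinAt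

theorem fr_meas (P Q : ℂ[X]) : Measurable (fr P Q) := P.continuous.measurable.div Q.continuous.measurable

theorem wn_ne {d : ℕ} {P Q : ℂ[X]} (h : RM d P Q) : wn P Q ≠ 0 := by
  intro h0
  unfold wn at h0
  have h1 : derivative P * Q = P * derivative Q := sub_eq_zero.mp h0
  obtain ⟨h2, hc, hm⟩ := h
  have hP : P ∣ derivative P := by
    apply hc.dvd_of_dvd_mul_right
    rw [h1]; exact dvd_mul_right _ _
  have hQ : Q ∣ derivative Q := by
    apply hc.symm.dvd_of_dvd_mul_left
    rw [← h1]; exact dvd_mul_left _ _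
  have key : ∀ R : ℂ[X], R ∣ derivative R → R.natDegree = 0 := by
    intro R hR
    by_contra hne
    have h3 : derivative R ≠ 0 := fun h => hne (natDegree_eq_zero_of_derivative_eq_zero h)
    have h4 := natDegree_le_of_dvd hR h3
    have h5 := natDegree_derivative_lt (p := R) hne
    omega
  rw [key P hP, key Q hQ] at hm
  simp at hm
  omega

theorem set_meas {P Q : ℂ[X]} {E : Set ℂ} (hE : MeasurableSet E) :
    MeasurableSet {z : ℂ | Q.eval z ≠ 0 ∧ fr P Q z ∈ E} :=
  (isOpen_ne_fun Q.continuous continuous_const).measurableSet.inter (fr_meas P Q hE)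

theorem af_key {d : ℕ} {P Q : ℂ[X]} (hR : RM d P Q) (g : ℂ → ENNReal) (E A : Set ℂ)
    (hg : Measurable g) (hE : MeasurableSet E) (hA : MeasurableSet A)
    (hAQ : ∀ z ∈ A, Q.eval z ≠ 0) (hinj : InjOn (fr P Q) A) :
    ∃ G : ℂ → ENNReal, Measurable G ∧
      (∀ w, G w = ∑ ζ ∈ pre P Q w, A.indicator g ζ) ∧
      ∫⁻ w in E, G w =
        ∫⁻ z in {z : ℂ | Q.eval z ≠ 0 ∧ fr P Q z ∈ E}, A.indicator
          (fun z => g z * ENNReal.ofReal (‖d1 P Q z‖ ^ 2)) z := by
  set S0 : Set ℂ := {z : ℂ | Q.eval z ≠ 0 ∧ fr P Q z ∈ E} with hS0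
  have hS0m : MeasurableSet S0 := set_meas hE
  have hme : MeasurableEmbedding (A.domRestrict (fr P Q)) :=
    measurableEmbedding_of_fderivWithin hA (fun x hx => af_fd P Q A (hAQ x hx)) hinj
  have hval : ∀ z ∈ A, Function.extend (A.domRestrict (fr P Q)) (fun x : A => g x) (fun _ => 0)
      (fr P Q z) = g z := by
    intro z hz
    have := hme.injective.extend_apply (fun x : A => g x) (fun _ => 0) ⟨z, hz⟩
    simpa using this
  have hzero : ∀ w, w ∉ fr P Q '' A → Function.extend (A.domRestrict (fr P Q)) (fun x : A => g x)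
      (fun _ => 0) w = 0 := by
    intro w hw
    apply Function.extend_apply'
    rintro ⟨a, ha⟩
    exact hw ⟨a, a.2, by simpa using ha⟩
  refine ⟨Function.extend (A.domRestrict (fr P Q)) (fun x : A => g x) (fun _ => 0), ?_, ?_, ?_⟩
  · exact hme.measurable_extend (hg.comp measurable_subtype_coe) measurable_const
  · intro w
    by_cases hw : w ∈ fr P Q '' A
    · obtain ⟨z, hz, rfl⟩ := hw
      rw [hval z hz, Finset.sum_eq_single z]
      · rw [indicator_of_mem hz]
      · intro b hb hbz
        rw [af_mem hR] at hb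
        rw [indicator_of_notMem]
        intro hbA
        exact hbz (hinj hbA hz hb.2)
      · intro h
        exact absurd ((af_mem hR _ _).mpr ⟨hAQ z hz, rfl⟩) h
    · rw [hzero w hw, Finset.sum_eq_zero]
      intro b hb
      rw [af_mem hR] at hb
      rw [indicator_of_notMem]
      intro hbA
      exact hw ⟨b, hbA, hb.2⟩
  · have hS : MeasurableSet (A ∩ (fr P Q) ⁻¹' E) := hA.inter (fr_meas P Q hE)
    have hinj' : InjOn (fr P Q) (A ∩ (fr P Q) ⁻¹' E) := hinj.mono inter_subset_left
    have hfd : ∀ x ∈ A ∩ (fr P Q) ⁻¹' E, HasFDerivWithinAt (fr P Q)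
        ((ContinuousLinearMap.toSpanSingleton ℂ (d1 P Q x)).restrictScalars ℝ : ℂ →L[ℝ] ℂ)
        (A ∩ (fr P Q) ⁻¹' E) x := fun x hx => af_fd P Q _ (hAQ x hx.1)
    have hI : MeasurableSet (fr P Q '' (A ∩ (fr P Q) ⁻¹' E)) :=
      measurable_image_of_fderivWithin hS hfd hinj'
    have h1 := lintegral_image_eq_lintegral_abs_det_fderiv_mul (volume : Measure ℂ) hS
      hfd hinj'
      (Function.extend (A.domRestrict (fr P Q)) (fun x : A => g x) (fun _ => 0))
    have h2 : ∫⁻ w in E,
        Function.extend (A.domRestrict (fr P Q)) (fun x : A => g x) (fun _ => 0) w =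
        ∫⁻ w in fr P Q '' (A ∩ (fr P Q) ⁻¹' E),
          Function.extend (A.domRestrict (fr P Q)) (fun x : A => g x) (fun _ => 0) w := by
      rw [← lintegral_indicator hE, ← lintegral_indicator hI]
      congr 1
      funext w
      by_cases hw : w ∈ fr P Q '' (A ∩ (fr P Q) ⁻¹' E)
      · rw [indicator_of_mem hw, indicator_of_mem]
        obtain ⟨z, hz, rfl⟩ := hw
        exact hz.2
      · rw [indicator_of_notMem hw]
        by_cases hwE : w ∈ E
        · rw [indicator_of_mem hwE]
          apply hzero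
          rintro ⟨z, hz, rfl⟩
          exact hw ⟨z, ⟨hz, hwE⟩, rfl⟩
        · rw [indicator_of_notMem hwE]
    rw [h2, h1, ← lintegral_indicator hS, ← lintegral_indicator hS0m]
    congr 1
    funext z
    by_cases hz : z ∈ A ∩ (fr P Q) ⁻¹' E
    · have hz0 : z ∈ S0 := ⟨hAQ z hz.1, hz.2⟩
      rw [indicator_of_mem hz, indicator_of_mem hz0, indicator_of_mem hz.1, hval z hz.1,
        af_det, abs_of_nonneg (by positivity), mul_comm]
    · rw [indicator_of_notMem hz]
      by_cases hzE : z ∈ S0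
      · rw [indicator_of_mem hzE, indicator_of_notMem]
        exact fun h => hz ⟨h, hzE.2⟩
      · rw [indicator_of_notMem hzE]

theorem d1_meas (P Q : ℂ[X]) : Measurable (d1 P Q) :=
  (wn P Q).continuous.measurable.div ((Q.continuous.pow 2).measurable)

theorem task : StAF := by
  intro d P Q g E hR hg hE
  have hQ := Q_ne hR
  have hW := wn_ne hR
  set U : Set ℂ := {z | Q.eval z ≠ 0 ∧ (wn P Q).eval z ≠ 0} with hU
  have hUo : IsOpen U := (isOpen_ne_fun Q.continuous continuous_const).inter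
    (isOpen_ne_fun (wn P Q).continuous continuous_const)
  have hUc : Uᶜ ⊆ ((Q.roots.toFinset ∪ (wn P Q).roots.toFinset : Finset ℂ) : Set ℂ) := by
    intro z hz
    rw [Finset.mem_coe, Finset.mem_union, Multiset.mem_toFinset, Multiset.mem_toFinset,
      mem_roots hQ, mem_roots hW, IsRoot.def, IsRoot.def]
    by_contra hcon
    push Not at hcon
    exact hz hcon
  have hUfin : (Uᶜ).Finite := (Finset.finite_toSet _).subset hUc
  have hUne : U.Nonempty := by
    by_contra h
    rw [Set.not_nonempty_iff_eq_empty] at h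
    rw [h, compl_empty] at hUfin
    exact infinite_univ hUfin
  -- local injectivity
  have hloc : ∀ z ∈ U, ∃ V : Set ℂ, IsOpen V ∧ z ∈ V ∧ InjOn (fr P Q) V := by
    intro z hz
    have hs := has_deriv (P := P) hz.1
    have hd : d1 P Q z ≠ 0 := div_ne_zero hz.2 (pow_ne_zero _ hz.1)
    have he := hs.hasStrictFDerivAt_equiv hd
    refine ⟨(he.toOpenPartialHomeomorph (fr P Q)).source,
      (he.toOpenPartialHomeomorph (fr P Q)).open_source, he.mem_toOpenPartialHomeomorph_source, ?_⟩
    have := (he.toOpenPartialHomeomorph (fr P Q)).injOn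
    rwa [he.toOpenPartialHomeomorph_coe] at this
  choose! V hVo hVm hVi using hloc
  obtain ⟨t, htU, htc, hcov⟩ := TopologicalSpace.countable_cover_nhdsWithin (f := V) (s := U)
    (fun x hx => mem_nhdsWithin_of_mem_nhds ((hVo x hx).mem_nhds (hVm x hx)))
  have htne : t.Nonempty := by
    obtain ⟨x, hx⟩ := hUne
    have := hcov hx
    simp only [mem_iUnion] at this
    obtain ⟨i, hi, _⟩ := this
    exact ⟨i, hi⟩
  obtain ⟨f, hf⟩ := htc.exists_eq_range htne
  have hfU : ∀ i, f i ∈ U := fun i => htU (hf ▸ mem_range_self i)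
  set B : ℕ → Set ℂ := fun i => U ∩ V (f i) with hB
  have hBm : ∀ i, MeasurableSet (B i) := fun i => (hUo.inter (hVo _ (hfU i))).measurableSet
  have hBU : ⋃ i, B i = U := by
    apply Subset.antisymm
    · exact iUnion_subset fun i => inter_subset_left
    · intro x hx
      have := hcov hx
      simp only [mem_iUnion] at this
      obtain ⟨y, hy, hxy⟩ := this
      rw [hf] at hy
      obtain ⟨i, rfl⟩ := hy
      exact mem_iUnion.mpr ⟨i, hx, hxy⟩
  set A : ℕ → Set ℂ := disjointed B with hA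
  have hAm : ∀ i, MeasurableSet (A i) := fun i => MeasurableSet.disjointed hBm i
  have hAB : ∀ i, A i ⊆ B i := fun i => disjointed_subset B i
  have hAU : ⋃ i, A i = U := by rw [hA, iUnion_disjointed, hBU]
  have hAd : Pairwise (Function.onFun Disjoint A) := disjoint_disjointed B
  have hAi : ∀ i, InjOn (fr P Q) (A i) := fun i =>
    (hVi _ (hfU i)).mono ((hAB i).trans inter_subset_right)
  have hAQ : ∀ i, ∀ z ∈ A i, Q.eval z ≠ 0 := fun i z hz => (hAB i hz).1.1
  -- sum of indicators
  have hsum : ∀ (h : ℂ → ENNReal) (z : ℂ), ∑' i, (A i).indicator h z = U.indicator h z := by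
    intro h z
    by_cases hz : z ∈ U
    · rw [indicator_of_mem hz]
      rw [← hAU] at hz
      obtain ⟨i, hi⟩ := mem_iUnion.mp hz
      rw [tsum_eq_single i, indicator_of_mem hi]
      intro j hj
      rw [indicator_of_notMem]
      intro hjz
      exact (Set.disjoint_left.mp (hAd hj)) hjz hi
    · rw [indicator_of_notMem hz]
      rw [ENNReal.tsum_eq_zero]
      intro i
      rw [indicator_of_notMem]
      intro hi
      exact hz (hAU ▸ mem_iUnion.mpr ⟨i, hi⟩)
  choose G hGm hGs hGi using fun i => af_key hR g E (A i) hg hE (hAm i) (hAQ i) (hAi i)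
  have hL : ∫⁻ w in E, ∑ ζ ∈ pre P Q w, g ζ = ∫⁻ w in E, ∑' i, G i w := by
    apply lintegral_congr_ae
    have hnull : volume (fr P Q '' Uᶜ) = 0 := (hUfin.image _).measure_zero _
    have : ∀ᵐ w ∂(volume.restrict E), w ∉ fr P Q '' Uᶜ := by
      apply ae_restrict_of_ae
      exact measure_eq_zero_iff_ae_notMem.mp hnull
    filter_upwards [this] with w hw
    simp only [hGs]
    rw [tsum_congr (fun i => rfl), Summable.tsum_finsetSum (fun i _ => ENNReal.summable)]
    apply Finset.sum_congr rfl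
    intro ζ hζ
    rw [hsum, indicator_of_mem]
    by_contra hn
    rw [af_mem hR] at hζ
    exact hw ⟨ζ, hn, hζ.2⟩
  rw [hL, lintegral_tsum (fun i => (hGm i).aemeasurable)]
  simp only [hGi]
  rw [← lintegral_tsum]
  · apply lintegral_congr_ae
    have hnull : volume (Uᶜ) = 0 := hUfin.measure_zero _
    have : ∀ᵐ w ∂(volume.restrict {z : ℂ | Q.eval z ≠ 0 ∧ fr P Q z ∈ E}), w ∉ Uᶜ := by
      apply ae_restrict_of_ae
      exact measure_eq_zero_iff_ae_notMem.mp hnull
    filter_upwards [this] with w hw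
    rw [hsum, indicator_of_mem]
    by_contra hn
    exact hw hn
  · intro i
    apply Measurable.aemeasurable
    apply Measurable.indicator _ (hAm i)
    apply hg.mul
    apply ENNReal.measurable_ofReal.comp
    exact (d1_meas P Q).norm.pow_const 2

end Pool.Agent.W40.RQAF
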