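import Mathlib
import Pool.Agent.W757.QR.St
import Pool.Agent.H790R3.RB.TFAM
import Pool.Agent.H790R3.RB.TPQ
import Pool.Agent.W40.RQAF

set_option autoImplicit false

open Topology Filter Metric Set Polynomial MeasureTheory

namespace Pool.Agent.W40.RQCURVE

open Pool.Agent.W757.QR
open Pool.Agent.H790R3.RB (CV ND pol)

/-- quantitative surjectivity near a point where the derivative is surjective -/
theorem solve {X Y : Type} [NormedAddCommGroup X] [NormedSpace ℂ X] [CompleteSpace X]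
    [NormedAddCommGroup Y] [NormedSpace ℂ Y] [CompleteSpace Y] (F : X → Y)
    (hF : ContDiffAt ℂ 1 F 0)
    (hs : ∀ w, ∃ v, fderiv ℂ F 0 v = w) :
    ∃ C ε : ℝ, 0 < C ∧ 0 < ε ∧ ∀ y, ‖y - F 0‖ ≤ ε → ∃ x, ‖x‖ ≤ C * ‖y - F 0‖ ∧ F x = y := by
  have h1 : HasStrictFDerivAt F (fderiv ℂ F 0) 0 := hF.hasStrictFDerivAt (by norm_num)
  have hr : (fderiv ℂ F 0).range = ⊤ := by
    rw [LinearMap.range_eq_top]
    exact fun w => hs w
  set R := (fderiv ℂ F 0).nonlinearRightInverseOfSurjective hr with hR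
  have hN : 0 < R.nnnorm := (fderiv ℂ F 0).nonlinearRightInverseOfSurjective_nnnorm_pos hr
  have hN' : (0 : ℝ) < (R.nnnorm : ℝ) := by exact_mod_cast hN
  obtain ⟨s, hs0, hap⟩ := h1.approximates_deriv_on_nhds (c := R.nnnorm⁻¹ / 2)
    (Or.inr (by positivity))
  obtain ⟨ε₁, hε₁, hsub⟩ := Metric.nhds_basis_closedBall.mem_iff.mp hs0
  refine ⟨2 * R.nnnorm, ε₁ / (2 * R.nnnorm), by positivity, by positivity, ?_⟩
  intro y hy
  have hy' : 2 * (R.nnnorm : ℝ) * ‖y - F 0‖ ≤ ε₁ := by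
    rw [le_div_iff₀ (by positivity)] at hy
    linarith
  have h2 := hap.surjOn_closedBall_of_nonlinearRightInverse R (ε := 2 * R.nnnorm * ‖y - F 0‖)
    (b := 0) (by positivity) ((closedBall_subset_closedBall hy').trans hsub)
  have h3 : y ∈ closedBall (F 0) (((R.nnnorm : ℝ)⁻¹ - ((R.nnnorm⁻¹ / 2 : NNReal) : ℝ)) *
      (2 * R.nnnorm * ‖y - F 0‖)) := by
    rw [mem_closedBall, dist_eq_norm]
    push_cast
    apply le_of_eq
    field_simp
    ring
  obtain ⟨x, hx, hxy⟩ := h2 h3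
  refine ⟨x, ?_, hxy⟩
  rwa [mem_closedBall, dist_zero_right] at hx

/-- derivative of an iterate along an orbit -/
theorem hasDerivAt_iter (f : ℂ → ℂ) (f' : ℕ → ℂ) (x : ℂ)
    (hf : ∀ i, HasDerivAt f (f' i) (f^[i] x)) (n : ℕ) :
    HasDerivAt (f^[n]) (∏ i ∈ Finset.range n, f' i) x := by
  induction n with
  | zero => simpa using hasDerivAt_id x
  | succ n ih =>
    rw [Function.iterate_succ', Finset.prod_range_succ, mul_comm]
    exact (hf n).comp x ih

/-- product over several periods -/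
theorem prod_periods (G : ℕ → ℂ) (m k : ℕ) (hG : ∀ i, G (i + m) = G i) :
    ∏ i ∈ Finset.range (m * k), G i = (∏ i ∈ Finset.range m, G i) ^ k := by
  induction k with
  | zero => simp
  | succ k ih =>
    rw [Nat.mul_succ, Finset.prod_range_add, ih, pow_succ]
    congr 1
    apply Finset.prod_congr rfl
    intro i _
    have : ∀ k, G (m * k + i) = G i := by
      intro k
      induction k with
      | zero => simp
      | succ k ih2 =>
        rw [← ih2, ← hG (m * k + i)]
        congr 1; ring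
    exact this k

section pol

variable {d : ℕ}

theorem pol_add (x y : CV d) (i : Fin 2) : pol (x + y) i = pol x i + pol y i := by
  unfold pol
  rw [← Finset.sum_add_distrib]
  apply Finset.sum_congr rfl
  intro j _
  rw [Pi.add_apply, map_add]

theorem pol_smul (s : ℂ) (x : CV d) (i : Fin 2) : pol (s • x) i = C s * pol x i := by
  unfold pol
  rw [Finset.mul_sum]
  apply Finset.sum_congr rfl
  intro j _
  rw [Pi.smul_apply, smul_eq_mul, C_mul_monomial]

theorem pol_zero (i : Fin 2) : pol (0 : CV d) i = 0 := by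
  unfold pol
  apply Finset.sum_eq_zero
  intro j _
  simp

theorem pe (x : CV d) (i : Fin 2) (w : ℂ) :
    (pol x i).eval w = ∑ j : Fin (d + 1), x (i, j) * w ^ (j : ℕ) := by
  unfold pol
  rw [eval_finsetSum]
  apply Finset.sum_congr rfl
  intro j _
  rw [eval_monomial]

theorem pde (x : CV d) (i : Fin 2) (w : ℂ) :
    (derivative (pol x i)).eval w =
      ∑ j : Fin (d + 1), x (i, j) * (((j : ℕ) : ℂ) * w ^ ((j : ℕ) - 1)) := by
  unfold pol
  rw [derivative_sum, eval_finsetSum]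
  apply Finset.sum_congr rfl
  intro j _
  rw [derivative_monomial, eval_monomial]
  ring

theorem pol_of (A : ℂ[X]) (B : ℂ[X]) (hA : A.natDegree ≤ d) (hB : B.natDegree ≤ d) :
    ∃ y : CV d, pol y 0 = A ∧ pol y 1 = B := by
  refine ⟨fun q => if q.1 = 0 then A.coeff q.2 else B.coeff q.2, ?_, ?_⟩
  · ext j
    rcases Nat.lt_or_ge d j with h | h
    · rw [Pool.Agent.H790R3.RB.PQ.pol_coeff_gt _ _ _ h, coeff_eq_zero_of_natDegree_lt (by omega)]
    · have := Pool.Agent.H790R3.RB.PQ.pol_coeff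
        (fun q : Fin 2 × Fin (d + 1) => if q.1 = 0 then A.coeff q.2 else B.coeff q.2) 0
        ⟨j, by omega⟩
      simpa using this
  · ext j
    rcases Nat.lt_or_ge d j with h | h
    · rw [Pool.Agent.H790R3.RB.PQ.pol_coeff_gt _ _ _ h, coeff_eq_zero_of_natDegree_lt (by omega)]
    · have := Pool.Agent.H790R3.RB.PQ.pol_coeff
        (fun q : Fin 2 × Fin (d + 1) => if q.1 = 0 then A.coeff q.2 else B.coeff q.2) 1
        ⟨j, by omega⟩
      simpa using this

end pol

section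

variable {d : ℕ} {x : CV d} {Z : Finset ℂ} (hZ : ∀ z ∈ Z, fx x z ∈ Z)

/-- the permutation of the points -/
noncomputable def sg (z : Z) : Z := ⟨fx x z, hZ z z.2⟩

theorem sg_iter (i : ℕ) (z : Z) : (((sg hZ)^[i] z : Z) : ℂ) = (fx x)^[i] z := by
  induction i with
  | zero => rfl
  | succ i ih => rw [Function.iterate_succ_apply', Function.iterate_succ_apply', ← ih]; rfl

/-- numerator or denominator at the moved point -/
noncomputable def E0 (x : CV d) (i : Fin 2) (v : CV d × (Z → ℂ)) (z : Z) : ℂ :=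
  (pol (x + v.1) i).eval ((z : ℂ) + v.2 z)

/-- the derivatives of numerator or denominator at the moved point -/
noncomputable def E1 (x : CV d) (i : Fin 2) (v : CV d × (Z → ℂ)) (z : Z) : ℂ :=
  (derivative (pol (x + v.1) i)).eval ((z : ℂ) + v.2 z)

/-- the equations of the cycles -/
noncomputable def F1 (v : CV d × (Z → ℂ)) (z : Z) : ℂ :=
  E0 x 0 v z / E0 x 1 v z - (fx x z + v.2 (sg hZ z))

/-- the derivative at a point of the cycle -/
noncomputable def G (x : CV d) (v : CV d × (Z → ℂ)) (z : Z) : ℂ :=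
  (E1 x 0 v z * E0 x 1 v z - E0 x 0 v z * E1 x 1 v z) / E0 x 1 v z ^ 2

/-- the multipliers -/
noncomputable def F2 (v : CV d × (Z → ℂ)) (z : Z) : ℂ :=
  ∏ i ∈ Finset.range (Function.minimalPeriod (fx x) z), G x v ((sg hZ)^[i] z)

theorem E0_cd (i : Fin 2) (z : Z) : ContDiff ℂ 1 (fun v : CV d × (Z → ℂ) => E0 x i v z) := by
  unfold E0
  simp only [pe, Pi.add_apply]
  fun_prop

theorem E1_cd (i : Fin 2) (z : Z) : ContDiff ℂ 1 (fun v : CV d × (Z → ℂ) => E1 x i v z) := by
  unfold E1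
  simp only [pde, Pi.add_apply]
  fun_prop

theorem E0_zero (i : Fin 2) (z : Z) : E0 x i (0 : CV d × (Z → ℂ)) z = (pol x i).eval (z : ℂ) := by
  simp [E0]

theorem E1_zero (i : Fin 2) (z : Z) :
    E1 x i (0 : CV d × (Z → ℂ)) z = (derivative (pol x i)).eval (z : ℂ) := by
  simp [E1]

variable (hQ : ∀ z ∈ Z, (de x).eval z ≠ 0)

theorem F1_cd (hQ : ∀ z ∈ Z, (de x).eval z ≠ 0) (z : Z) :
    ContDiffAt ℂ 1 (fun v : CV d × (Z → ℂ) => F1 hZ v z) 0 := by
  unfold F1
  apply ContDiffAt.sub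
  · apply ContDiffAt.div (E0_cd 0 z).contDiffAt (E0_cd 1 z).contDiffAt
    rw [E0_zero]
    exact hQ z z.2
  · fun_prop

theorem G_cd (hQ : ∀ z ∈ Z, (de x).eval z ≠ 0) (z : Z) :
    ContDiffAt ℂ 1 (fun v : CV d × (Z → ℂ) => G x v z) 0 := by
  unfold G
  apply ContDiffAt.div
  · exact (((E1_cd 0 z).mul (E0_cd 1 z)).sub ((E0_cd 0 z).mul (E1_cd 1 z))).contDiffAt
  · exact ((E0_cd 1 z).pow 2).contDiffAt
  · rw [E0_zero]
    exact pow_ne_zero _ (hQ z z.2)

theorem F2_cd (hQ : ∀ z ∈ Z, (de x).eval z ≠ 0) (z : Z) :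
    ContDiffAt ℂ 1 (fun v : CV d × (Z → ℂ) => F2 hZ v z) 0 := by
  unfold F2
  exact contDiffAt_prod fun i _ => G_cd hQ _

theorem line (P : ℂ[X]) (z a : ℂ) :
    HasDerivAt (fun s : ℂ => P.eval (z + s * a)) ((derivative P).eval z * a) 0 := by
  have h1 : HasDerivAt (fun s : ℂ => z + s * a) a 0 := by
    simpa using ((hasDerivAt_id (0 : ℂ)).mul_const a).const_add z
  have h2 : HasDerivAt (fun w : ℂ => P.eval w) ((derivative P).eval z) (z + 0 * a) := by
    have := P.hasDerivAt (z + 0 * a)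
    simpa using this
  exact h2.comp (0 : ℂ) h1

theorem line0 (P : ℂ[X]) (z a : ℂ) :
    HasDerivAt (fun s : ℂ => s * P.eval (z + s * a)) (P.eval z) 0 := by
  have h := (hasDerivAt_id' (0 : ℂ)).fun_mul (line P z a)
  simpa using h

theorem E0_line (i : Fin 2) (v : CV d × (Z → ℂ)) (z : Z) :
    HasDerivAt (fun s : ℂ => E0 x i (s • v) z)
      ((derivative (pol x i)).eval (z : ℂ) * v.2 z + (pol v.1 i).eval (z : ℂ)) 0 := by
  have h := (line (pol x i) z (v.2 z)).add (line0 (pol v.1 i) z (v.2 z))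
  refine h.congr_of_eventuallyEq (Eventually.of_forall fun s => ?_)
  simp only [E0, Prod.smul_fst, Prod.smul_snd, pol_add, pol_smul, Pi.smul_apply, smul_eq_mul,
    Polynomial.eval_add, Polynomial.eval_mul, Polynomial.eval_C, Pi.add_apply]

theorem E1_line (i : Fin 2) (v : CV d × (Z → ℂ)) (z : Z) :
    HasDerivAt (fun s : ℂ => E1 x i (s • v) z)
      ((derivative (derivative (pol x i))).eval (z : ℂ) * v.2 z +
        (derivative (pol v.1 i)).eval (z : ℂ)) 0 := by
  have h := (line (derivative (pol x i)) z (v.2 z)).add (line0 (derivative (pol v.1 i)) z (v.2 z))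
  refine h.congr_of_eventuallyEq (Eventually.of_forall fun s => ?_)
  simp only [E1, Prod.smul_fst, Prod.smul_snd, pol_add, pol_smul, Pi.smul_apply, smul_eq_mul,
    Polynomial.derivative_C_mul, Polynomial.derivative_add, Polynomial.eval_add,
    Polynomial.eval_mul, Polynomial.eval_C, Pi.add_apply]

theorem F1_line (hQ : ∀ z ∈ Z, (de x).eval z ≠ 0) (v : CV d × (Z → ℂ)) (z : Z) :
    HasDerivAt (fun s : ℂ => F1 hZ (s • v) z)
      (d1 (nu x) (de x) z * v.2 z + hv (de x) (pol v.1 0 * de x - nu x * pol v.1 1) z -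
        v.2 (sg hZ z)) 0 := by
  have h3 : HasDerivAt (fun s : ℂ => fx x z + s * v.2 (sg hZ z)) (v.2 (sg hZ z)) 0 := by
    simpa using ((hasDerivAt_id (0 : ℂ)).mul_const (v.2 (sg hZ z))).const_add (fx x z)
  have hq0 : E0 x 1 ((0 : ℂ) • v) z ≠ 0 := by
    rw [zero_smul, E0_zero]; exact hQ z z.2
  have h := ((E0_line (x := x) 0 v z).fun_div (E0_line 1 v z) hq0).sub h3
  refine (h.congr_of_eventuallyEq (Eventually.of_forall fun s => ?_)).congr_deriv ?_
  · simp only [F1, Prod.smul_snd, Pi.smul_apply, smul_eq_mul, Pi.sub_apply]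
  · congr 1
    rw [zero_smul, E0_zero, E0_zero]
    have hq : (pol x 1).eval (z : ℂ) ≠ 0 := hQ z z.2
    unfold d1 wn hv nu de
    simp only [eval_sub, eval_mul]
    field_simp
    ring

theorem G_zero (z : Z) : G x (0 : CV d × (Z → ℂ)) z = d1 (nu x) (de x) z := by
  unfold G d1 wn nu de
  rw [E0_zero, E0_zero, E1_zero, E1_zero]
  simp only [eval_sub, eval_mul]

theorem G_line (hQ : ∀ z ∈ Z, (de x).eval z ≠ 0) (v : CV d × (Z → ℂ)) (z : Z) :
    HasDerivAt (fun s : ℂ => G x (s • v) z)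
      (d2 (nu x) (de x) z * v.2 z + hd (de x) (pol v.1 0 * de x - nu x * pol v.1 1) z) 0 := by
  have hq0 : E0 x 1 ((0 : ℂ) • v) z ≠ 0 := by
    rw [zero_smul, E0_zero]; exact hQ z z.2
  have hn := ((E1_line (x := x) 0 v z).fun_mul (E0_line (x := x) 1 v z)).fun_sub
    ((E0_line (x := x) 0 v z).fun_mul (E1_line (x := x) 1 v z))
  have hd' := (E0_line (x := x) 1 v z).fun_pow 2
  have h := hn.fun_div hd' (pow_ne_zero 2 hq0)
  refine (h.congr_of_eventuallyEq (Eventually.of_forall fun s => ?_)).congr_deriv ?_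
  · simp only [G]
  · rw [zero_smul, E0_zero, E0_zero, E1_zero, E1_zero]
    have hq : (pol x 1).eval (z : ℂ) ≠ 0 := hQ z z.2
    unfold d2 wn hd nu de
    simp only [eval_sub, eval_mul, eval_add, derivative_sub, derivative_mul]
    field_simp
    ring

theorem F1_zero (z : Z) : F1 hZ (0 : CV d × (Z → ℂ)) z = 0 := by
  unfold F1
  rw [E0_zero, E0_zero]
  simp [fx, fr, nu, de]

theorem F2_line (hQ : ∀ z ∈ Z, (de x).eval z ≠ 0) (hne : ∀ z ∈ Z, d1 (nu x) (de x) z ≠ 0)
    (v : CV d × (Z → ℂ)) (z : Z) :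
    HasDerivAt (fun s : ℂ => F2 hZ (s • v) z)
      (F2 hZ (0 : CV d × (Z → ℂ)) z *
        ∑ i ∈ Finset.range (Function.minimalPeriod (fx x) z),
          (hd (de x) (pol v.1 0 * de x - nu x * pol v.1 1) (((sg hZ)^[i] z : Z) : ℂ) +
            d2 (nu x) (de x) (((sg hZ)^[i] z : Z) : ℂ) * v.2 ((sg hZ)^[i] z)) /
            d1 (nu x) (de x) (((sg hZ)^[i] z : Z) : ℂ)) 0 := by
  have h := HasDerivAt.fun_finsetProd (u := Finset.range (Function.minimalPeriod (fx x) z))
    (f := fun i s => G x (s • v) ((sg hZ)^[i] z)) (x := (0 : ℂ))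
    (f' := fun i => d2 (nu x) (de x) (((sg hZ)^[i] z : Z) : ℂ) *
      v.2 ((sg hZ)^[i] z) + hd (de x) (pol v.1 0 * de x - nu x * pol v.1 1)
        (((sg hZ)^[i] z : Z) : ℂ))
    (fun i _ => G_line hQ v _)
  refine h.congr_deriv ?_
  rw [Finset.mul_sum]
  apply Finset.sum_congr rfl
  intro i hi
  simp only [zero_smul, smul_eq_mul]
  have hG : G x (0 : CV d × (Z → ℂ)) ((sg hZ)^[i] z) ≠ 0 := by
    rw [G_zero]; exact hne _ ((sg hZ)^[i] z).2
  have h2 : F2 hZ (0 : CV d × (Z → ℂ)) z =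
      G x (0 : CV d × (Z → ℂ)) ((sg hZ)^[i] z) *
      ∏ j ∈ (Finset.range (Function.minimalPeriod (fx x) z)).erase i,
        G x (0 : CV d × (Z → ℂ)) ((sg hZ)^[j] z) := by
    unfold F2
    rw [Finset.mul_prod_erase _ (fun j => G x (0 : CV d × (Z → ℂ)) ((sg hZ)^[j] z)) hi]
  rw [h2, ← G_zero (x := x) ((sg hZ)^[i] z)]
  field_simp
  ring

/-- two points of the same cycle (one step) -/
def rr (z z' : Z) : Prop := z' = sg hZ z

include hZ in
theorem periodic (hinj : ∀ z ∈ Z, ∀ z' ∈ Z, fx x z = fx x z' → z = z') (z : Z) :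
    (z : ℂ) ∈ Function.periodicPts (fx x) := by
  have hi : Function.Injective (sg hZ) := by
    intro a b hab
    exact Subtype.ext (hinj a a.2 b b.2 (congrArg Subtype.val hab))
  obtain ⟨n, hn, hp⟩ := Function.mem_periodicPts.mp (hi.mem_periodicPts z)
  refine Function.mem_periodicPts.mpr ⟨n, hn, ?_⟩
  have := congrArg Subtype.val hp.eq
  rw [sg_iter] at this
  exact this

theorem F2_inv (hinj : ∀ z ∈ Z, ∀ z' ∈ Z, fx x z = fx x z' → z = z')
    (v : CV d × (Z → ℂ)) (z : Z) : F2 hZ v (sg hZ z) = F2 hZ v z := by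
  unfold F2
  have hN : Function.minimalPeriod (fx x) ((sg hZ z : Z) : ℂ) =
      Function.minimalPeriod (fx x) (z : ℂ) :=
    Function.minimalPeriod_apply (periodic hZ hinj z)
  rw [hN]
  have hper : (sg hZ)^[Function.minimalPeriod (fx x) (z : ℂ)] z = z := by
    apply Subtype.ext
    rw [sg_iter]
    exact Function.iterate_minimalPeriod
  set N := Function.minimalPeriod (fx x) (z : ℂ) with hNdef
  clear_value N
  cases N with
  | zero => simp
  | succ N =>
    rw [Finset.prod_range_succ, Finset.prod_range_succ']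
    congr 1
    rw [← Function.iterate_succ_apply, hper]
    rfl

/-- the invariant function, lifted -/
theorem F2_out (hinj : ∀ z ∈ Z, ∀ z' ∈ Z, fx x z = fx x z' → z = z')
    (v : CV d × (Z → ℂ)) (z : Z) :
    F2 hZ v (Quot.mk (rr hZ) z).out = F2 hZ v z := by
  have h : ∀ a b, rr hZ a b → F2 hZ v a = F2 hZ v b := by
    rintro a _ rfl
    exact (F2_inv hZ hinj v a).symm
  have h1 : Quot.lift (F2 hZ v) h (Quot.mk (rr hZ) (Quot.mk (rr hZ) z).out) =
      Quot.lift (F2 hZ v) h (Quot.mk (rr hZ) z) := by rw [Quot.out_eq]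
  exact h1

end


theorem RM_of {d : ℕ} {x : CV d} (hd : 2 ≤ d) (hx : ND x) : RM d (nu x) (de x) := by
  obtain ⟨h1, h2⟩ := Pool.Agent.H790R3.RB.PQ.part1 (by omega : 1 ≤ d) x hx
  exact ⟨hd, h1, h2⟩

theorem task : StCURVE := by
  classical
  intro hSYL d x Z hd2 hND hCyc _ hsol
  obtain ⟨hC1, hinj⟩ := hCyc
  have hQ : ∀ z ∈ Z, (de x).eval z ≠ 0 := fun z hz => (hC1 z hz).1
  have hZ : ∀ z ∈ Z, fx x z ∈ Z := fun z hz => (hC1 z hz).2.2
  have hne : ∀ z ∈ Z, d1 (nu x) (de x) z ≠ 0 := fun z hz =>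
    div_ne_zero (hC1 z hz).2.1 (pow_ne_zero _ (hQ z hz))
  have hRM := RM_of hd2 hND
  let Cy : Type := Quot (rr hZ)
  have : Fintype Cy := Fintype.ofFinite _
  let F : CV d × (Z → ℂ) → (Z → ℂ) × (Cy → ℂ) := fun v =>
    (F1 hZ v, fun q => F2 hZ v q.out)
  have hFcd : ContDiffAt ℂ 1 F 0 :=
    (contDiffAt_pi.mpr fun z => F1_cd hZ hQ z).prodMk (contDiffAt_pi.mpr fun q => F2_cd hZ hQ _)
  have hF20 : ∀ z : Z, F2 hZ (0 : CV d × (Z → ℂ)) z ≠ 0 := by
    intro z
    unfold F2
    rw [Finset.prod_ne_zero_iff]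
    intro i _
    rw [G_zero]
    exact hne _ ((sg hZ)^[i] z).2
  have hsurj : ∀ w, ∃ v, fderiv ℂ F 0 v = w := by
    rintro ⟨w1, w2⟩
    obtain ⟨H, u, hdeg, he, hk⟩ := hsol (fun z => if h : z ∈ Z then - w1 ⟨z, h⟩ else 0)
      (fun z => if h : z ∈ Z then w2 (Quot.mk (rr hZ) ⟨z, h⟩) /
        F2 hZ (0 : CV d × (Z → ℂ)) ⟨z, h⟩ else 0) (by
        intro z hz
        rw [dif_pos (hZ z hz), dif_pos hz]
        have h1 : (⟨fx x z, hZ z hz⟩ : Z) = sg hZ ⟨z, hz⟩ := rfl
        rw [h1, F2_inv hZ hinj, ← Quot.sound (show rr hZ ⟨z, hz⟩ (sg hZ ⟨z, hz⟩) from rfl)])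
    obtain ⟨A, B, hA, hB, hAB⟩ := hSYL d (nu x) (de x) H hRM hdeg
    obtain ⟨y, hy0, hy1⟩ := pol_of (d := d) A B hA hB
    have hH : pol y 0 * de x - nu x * pol y 1 = H := by rw [hy0, hy1]; exact hAB
    refine ⟨(y, fun z => u z), ?_⟩
    set v : CV d × (Z → ℂ) := (y, fun z => u z) with hv
    have hH' : pol v.1 0 * de x - nu x * pol v.1 1 = H := hH
    have hline : HasDerivAt (fun s : ℂ => s • v) v 0 := by
      simpa using (hasDerivAt_id (0 : ℂ)).smul_const v
    have hF0 : HasFDerivAt F (fderiv ℂ F 0) ((0 : ℂ) • v) := by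
      rw [zero_smul]
      exact (hFcd.differentiableAt (by norm_num)).hasFDerivAt
    have hc : HasDerivAt (fun s : ℂ => F (s • v)) (fderiv ℂ F 0 v) 0 :=
      hF0.comp_hasDerivAt (0 : ℂ) hline
    have hc2 : HasDerivAt (fun s : ℂ => F (s • v)) (w1, w2) 0 := by
      apply HasDerivAt.prodMk
      · rw [hasDerivAt_pi]
        intro z
        refine (F1_line hZ hQ v z).congr_deriv ?_
        have h1 := he z z.2
        rw [dif_pos z.2] at h1
        rw [hH']
        have h2 : ((sg hZ z : Z) : ℂ) = fx x (z : ℂ) := rfl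
        simp only [hv]
        rw [h2]
        linear_combination -h1
      · rw [hasDerivAt_pi]
        intro q
        refine (F2_line hZ hQ hne v q.out).congr_deriv ?_
        have h1 := hk q.out q.out.2
        rw [dif_pos q.out.2] at h1
        rw [hH']
        simp only [hv, sg_iter]
        rw [h1]
        have h2 : Quot.mk (rr hZ) (⟨(q.out : ℂ), q.out.2⟩ : Z) = q := Quot.out_eq q
        rw [h2]
        field_simp [hF20]
    exact hc.unique hc2
  obtain ⟨C, ε, hC, hε, hsolve⟩ := solve F hFcd hsurj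
  set K : ℝ := ‖(fun q : Cy => F2 hZ (0 : CV d × (Z → ℂ)) q.out)‖ with hK
  have hK0 : 0 ≤ K := norm_nonneg _
  have hF0 : F 0 = (0, fun q => F2 hZ (0 : CV d × (Z → ℂ)) q.out) := by
    show (F1 hZ 0, _) = _
    congr 1
    funext z
    exact F1_zero hZ z
  -- openness of the nondegeneracy conditions
  have hop : ∀ᶠ v : CV d × (Z → ℂ) in 𝓝 0, ND (x + v.1) ∧ ∀ z : Z, E0 x 1 v z ≠ 0 := by
    apply Filter.Eventually.and
    · have h1 : Tendsto (fun v : CV d × (Z → ℂ) => x + v.1) (𝓝 0) (𝓝 x) := by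
        have : Continuous (fun v : CV d × (Z → ℂ) => x + v.1) := by fun_prop
        have h2 := this.tendsto 0
        simpa using h2
      exact h1.eventually (Pool.Agent.H790R3.RB.FAM.ND_open hND)
    · rw [Filter.eventually_all]
      intro z
      have h1 := (E0_cd (x := x) 1 z).continuous.continuousAt (x := 0)
      apply h1.eventually_ne
      rw [E0_zero]
      exact hQ z z.2
  obtain ⟨η, hη, hop⟩ := Metric.eventually_nhds_iff.1 hop
  set t₀ : ℝ := min (ε / (K + 1)) (η / (2 * (C * (K + 1)))) with ht₀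
  have ht₀pos : 0 < t₀ := by
    rw [ht₀]; apply lt_min <;> positivity
  have hex : ∀ t : ℝ, ∃ v : CV d × (Z → ℂ), 0 ≤ t → t ≤ ε / (K + 1) →
      ‖v‖ ≤ C * (K + 1) * t ∧ F v = (0, fun q => ((1 - t : ℝ) : ℂ) * F2 hZ (0 : CV d × (Z → ℂ)) q.out) := by
    intro t
    by_cases ht : 0 ≤ t ∧ t ≤ ε / (K + 1)
    · have hn : ‖((0, fun q => ((1 - t : ℝ) : ℂ) * F2 hZ (0 : CV d × (Z → ℂ)) q.out) : (Z → ℂ) × (Cy → ℂ)) - F 0‖ =
          t * K := by
        rw [hF0, Prod.mk_sub_mk, sub_zero, Prod.norm_mk, norm_zero, max_eq_right (norm_nonneg _)]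
        have h1 : ((fun q => ((1 - t : ℝ) : ℂ) * F2 hZ (0 : CV d × (Z → ℂ)) q.out) -
            fun q => F2 hZ (0 : CV d × (Z → ℂ)) q.out : Cy → ℂ) =
            (-t : ℂ) • fun q => F2 hZ (0 : CV d × (Z → ℂ)) q.out := by
          funext q
          simp only [Pi.sub_apply, Pi.smul_apply, smul_eq_mul]
          push_cast
          ring
        rw [h1, norm_smul, norm_neg, Complex.norm_real, Real.norm_eq_abs, abs_of_nonneg ht.1]
      have hle : t * K ≤ ε := by
        have := ht.2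
        rw [le_div_iff₀ (by linarith)] at this
        nlinarith [ht.1]
      obtain ⟨v, hx1, hx2⟩ := hsolve _ (hn.le.trans hle)
      refine ⟨v, fun _ _ => ⟨hx1.trans ?_, hx2⟩⟩
      rw [hn]
      nlinarith [mul_nonneg hC.le ht.1]
    · exact ⟨0, fun h1 h2 => absurd ⟨h1, h2⟩ ht⟩
  choose v hv using hex
  refine ⟨t₀, C * (K + 1), fun t => x + (v t).1,
    fun t w => w + (if h : w ∈ Z then (v t).2 ⟨w, h⟩ else 0),
    fun z p => p / Function.minimalPeriod (fx x) z, ht₀pos, by positivity, ?_, ?_⟩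
  · intro z hz p hp0 hpz
    have hper : Function.IsPeriodicPt (fx x) p z := hpz
    exact Nat.div_pos (Nat.le_of_dvd hp0 hper.minimalPeriod_dvd)
      (Function.minimalPeriod_pos_of_mem_periodicPts (Function.mk_mem_periodicPts hp0 hper))
  · intro t ht0 ht1
    obtain ⟨hxn, hxF⟩ := hv t ht0 (ht1.trans (min_le_left _ _))
    have hsmall : dist (v t) 0 < η := by
      rw [dist_zero_right]
      refine lt_of_le_of_lt hxn ?_
      have h1 : t ≤ η / (2 * (C * (K + 1))) := ht1.trans (min_le_right _ _)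
      rw [le_div_iff₀ (by positivity)] at h1
      linarith
    obtain ⟨hNDt, hEt⟩ := hop hsmall
    have hx1 : ∀ z : Z, F1 hZ (v t) z = 0 := fun z => congrFun (congrArg Prod.fst hxF) z
    have hx2 : ∀ z : Z, F2 hZ (v t) z =
        ((1 - t : ℝ) : ℂ) * F2 hZ (0 : CV d × (Z → ℂ)) z := by
      intro z
      have h1 := congrFun (congrArg Prod.snd hxF) (Quot.mk (rr hZ) z)
      change F2 hZ (v t) (Quot.mk (rr hZ) z).out =
        ((1 - t : ℝ) : ℂ) * F2 hZ (0 : CV d × (Z → ℂ)) (Quot.mk (rr hZ) z).out at h1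
      rwa [F2_out hZ hinj, F2_out hZ hinj] at h1
    have hn1 : ‖(v t).1‖ ≤ C * (K + 1) * t := (norm_fst_le (v t)).trans hxn
    have hn2 : ∀ z, ‖(v t).2 z‖ ≤ C * (K + 1) * t := fun z =>
      (norm_le_pi_norm _ z).trans ((norm_snd_le (v t)).trans hxn)
    refine ⟨hNDt, ?_, ?_⟩
    · simp only [add_sub_cancel_left]
      exact hn1
    · intro z hz
      have hyz : ∀ w (hw : w ∈ Z), w + (if h : w ∈ Z then (v t).2 ⟨w, h⟩ else 0) =
          w + (v t).2 ⟨w, hw⟩ := fun w hw => by rw [dif_pos hw]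
      have hstep : ∀ w (hw : w ∈ Z), fx (x + (v t).1) (w + (v t).2 ⟨w, hw⟩) =
          fx x w + (v t).2 ⟨fx x w, hZ w hw⟩ := by
        intro w hw
        have := hx1 ⟨w, hw⟩
        unfold F1 at this
        exact sub_eq_zero.mp this
      have hit : ∀ i : ℕ, (fx (x + (v t).1))^[i] (z + (v t).2 ⟨z, hz⟩) =
          (((sg hZ)^[i] ⟨z, hz⟩ : Z) : ℂ) + (v t).2 ((sg hZ)^[i] ⟨z, hz⟩) := by
        intro i
        induction i with
        | zero => rfl
        | succ i ih =>
          rw [Function.iterate_succ_apply', ih, Function.iterate_succ_apply']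
          exact hstep _ ((sg hZ)^[i] ⟨z, hz⟩).2
      refine ⟨?_, ?_, ?_, ?_⟩
      · simp only [hyz z hz, add_sub_cancel_left]
        exact hn2 _
      · intro j
        simp only [hyz z hz]
        rw [hit j]
        exact hEt _
      · simp only [hyz z hz, hyz _ (hZ z hz)]
        exact hstep z hz
      · intro p hp0 hpz
        have hper : Function.IsPeriodicPt (fx x) p z := hpz
        have hdvd := hper.minimalPeriod_dvd
        set N := Function.minimalPeriod (fx x) z with hN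
        have hsgN : (sg hZ)^[N] ⟨z, hz⟩ = ⟨z, hz⟩ := by
          apply Subtype.ext
          rw [sg_iter]
          exact Function.iterate_minimalPeriod
        have hshift : ∀ i, (sg hZ)^[i + N] ⟨z, hz⟩ = (sg hZ)^[i] ⟨z, hz⟩ := by
          intro i
          rw [Function.iterate_add_apply, hsgN]
        have hpN : p = N * (p / N) := (Nat.mul_div_cancel' hdvd).symm
        have e1 : deriv ((fx (x + (v t).1))^[p]) (z + (v t).2 ⟨z, hz⟩) =
            (F2 hZ (v t) ⟨z, hz⟩) ^ (p / N) := by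
          have hd1 : ∀ i : ℕ, HasDerivAt (fx (x + (v t).1)) (G x (v t) ((sg hZ)^[i] ⟨z, hz⟩))
              ((fx (x + (v t).1))^[i] (z + (v t).2 ⟨z, hz⟩)) := by
            intro i
            rw [hit i]
            have h1 := (Pool.Agent.W40.RQAF.has_deriv (P := nu (x + (v t).1))
              (Q := de (x + (v t).1)) (z := (((sg hZ)^[i] ⟨z, hz⟩ : Z) : ℂ) +
                (v t).2 ((sg hZ)^[i] ⟨z, hz⟩)) (hEt _)).hasDerivAt
            refine h1.congr_deriv ?_
            unfold d1 wn G E0 E1 nu de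
            simp only [eval_sub, eval_mul]
          rw [(hasDerivAt_iter _ _ _ hd1 p).deriv]
          conv_lhs => rw [hpN]
          exact prod_periods _ N (p / N) (fun i => by rw [hshift])
        have e2 : deriv ((fx x)^[p]) z =
            (F2 hZ (0 : CV d × (Z → ℂ)) ⟨z, hz⟩) ^ (p / N) := by
          have hd1 : ∀ i : ℕ, HasDerivAt (fx x) (G x (0 : CV d × (Z → ℂ)) ((sg hZ)^[i] ⟨z, hz⟩))
              ((fx x)^[i] z) := by
            intro i
            have h0 := sg_iter hZ i ⟨z, hz⟩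
            rw [← h0, G_zero]
            exact (Pool.Agent.W40.RQAF.has_deriv (P := nu x) (Q := de x)
              (hQ _ ((sg hZ)^[i] ⟨z, hz⟩).2)).hasDerivAt
          rw [(hasDerivAt_iter _ _ _ hd1 p).deriv]
          conv_lhs => rw [hpN]
          exact prod_periods _ N (p / N) (fun i => by rw [hshift])
        simp only [hyz z hz]
        rw [e1, e2, hx2, mul_pow]

end Pool.Agent.W40.RQCURVE
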