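import Mathlib
import Pool.Agent.W757.RC.St4

set_option autoImplicit false

open Topology Filter Metric Set MeasureTheory
open Pool.Agent.H790R3.RB (CV hF cr ND wr rt ch loc sp Attd HypTop Ix yx yc yk ret)
open scoped OnePoint

namespace Pool.Agent.W40.RQSEL

open Pool.Agent.W757.RC

theorem sel_inj {d n s l : ℕ} {S : Sys d n s} {KK : Option (Fin s) → (Fin n → ℂ) × (ℂ × ℂ) → ℂ}
    {e : Fin l → (Fin n → ℂ) → ℂ} {A : Finset (Fin (2 * d - 2))}
    {ks : Fin (2 * d - 2) → Option (Fin s)} {ls : Fin (2 * d - 2) → ℕ} {R : ℕ}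
    {y : Ix d n s → ℂ} (sel : Fin R → Sys.Rw l d s A)
    (col : Fin (2 * d - 2) ⊕ Fin R → Ix d n s) (h : (S.Mx KK e A ks ls sel col y).det ≠ 0) :
    Function.Injective sel := by
  intro i i' hii
  by_contra hne
  apply h
  have hne' : (Sum.inr i : Fin (2 * d - 2) ⊕ Fin R) ≠ Sum.inr i' := fun h => hne (Sum.inr_injective h)
  refine Matrix.det_zero_of_row_eq hne' ?_
  funext c
  simp only [Sys.Mx, Matrix.of_apply]
  rw [hii]

theorem R_le {d n s l : ℕ} {S : Sys d n s} {KK : Option (Fin s) → (Fin n → ℂ) × (ℂ × ℂ) → ℂ}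
    {e : Fin l → (Fin n → ℂ) → ℂ} {A : Finset (Fin (2 * d - 2))}
    {ks : Fin (2 * d - 2) → Option (Fin s)} {ls : Fin (2 * d - 2) → ℕ} {R : ℕ}
    {y : Ix d n s → ℂ} (h : Goodc S KK e A ks ls R y) :
    R ≤ l + ((s + 1) + (1 + A.card)) := by
  obtain ⟨-, sel, col, h⟩ := h
  have h1 := Fintype.card_le_of_injective sel (sel_inj sel col h)
  simp only [Fintype.card_fin, Fintype.card_sum, Fintype.card_option, Fintype.card_unit,
    Fintype.card_coe] at h1
  omega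

/-- configurations with `m` attracted critical points and at most `D` missing rows -/
def Cf {d n l : ℕ} (S₀ : BS d n) (e : Fin l → (Fin n → ℂ) → ℂ) (m D : ℕ) (ε : ℝ) : Prop :=
  ∃ (s : ℕ) (S : Sys d (n + s) s) (KK : Option (Fin s) → (Fin (n + s) → ℂ) × (ℂ × ℂ) → ℂ)
    (A : Finset (Fin (2 * d - 2))) (ks : Fin (2 * d - 2) → Option (Fin s))
    (ls : Fin (2 * d - 2) → ℕ) (R : ℕ) (y : Ix d (n + s) s → ℂ), Ext S₀ S ∧ S.Koe KK ∧
    A.card = m ∧ ‖xp (yx y) - S₀.xT‖ < ε ∧ volume (S.KS (yx y)) ≤ ENNReal.ofReal ε ∧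
    Goodc S KK (ee S e) A ks ls R y ∧ (l + s) + ((s + 1) + (1 + m)) ≤ R + D

theorem Cf.mono {d n l : ℕ} {S₀ : BS d n} {e : Fin l → (Fin n → ℂ) → ℂ} {m D : ℕ} {ε ε' : ℝ}
    (h : Cf S₀ e m D ε) (hε : ε ≤ ε') : Cf S₀ e m D ε' := by
  obtain ⟨s, S, KK, A, ks, ls, R, y, h1, h2, h3, h4, h5, h6, h7⟩ := h
  exact ⟨s, S, KK, A, ks, ls, R, y, h1, h2, h3, h4.trans_le hε,
    h5.trans (ENNReal.ofReal_le_ofReal hε), h6, h7⟩

/-- bound for the number of rows -/
def D0 (d l m : ℕ) : ℕ := (l + (2 * d - 2)) + (((2 * d - 2) + 1) + (1 + m))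

theorem s_le (hNUM : StNUM) (hER : StER) {d n s l : ℕ} {S : Sys d n s}
    {KK : Option (Fin s) → (Fin n → ℂ) × (ℂ × ℂ) → ℂ}
    {e : Fin l → (Fin n → ℂ) → ℂ} {A : Finset (Fin (2 * d - 2))}
    {ks : Fin (2 * d - 2) → Option (Fin s)} {ls : Fin (2 * d - 2) → ℕ} {R : ℕ}
    {y : Ix d n s → ℂ} (h : Goodc S KK e A ks ls R y) : s ≤ 2 * d - 2 :=
  hNUM d n s S (yx y) h.1.xU h.1.lam0 ⟨yc y, hER d n s S y h.1.crit⟩

theorem Cf_of (hNUM : StNUM) (hER : StER) {d n l : ℕ} {S₀ : BS d n}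
    {e : Fin l → (Fin n → ℂ) → ℂ} {ε : ℝ} {s : ℕ} {S : Sys d (n + s) s}
    {KK : Option (Fin s) → (Fin (n + s) → ℂ) × (ℂ × ℂ) → ℂ}
    {A : Finset (Fin (2 * d - 2))} {ks : Fin (2 * d - 2) → Option (Fin s)}
    {ls : Fin (2 * d - 2) → ℕ} {R : ℕ} {y : Ix d (n + s) s → ℂ} (h1 : Ext S₀ S) (h2 : S.Koe KK)
    (h4 : ‖xp (yx y) - S₀.xT‖ < ε) (h5 : volume (S.KS (yx y)) ≤ ENNReal.ofReal ε)
    (h6 : Goodc S KK (ee S e) A ks ls R y) : Cf S₀ e A.card (D0 d l A.card) ε := by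
  refine ⟨s, S, KK, A, ks, ls, R, y, h1, h2, rfl, h4, h5, h6, ?_⟩
  have := s_le hNUM hER h6
  unfold D0
  omega

theorem ch_eq {N s : ℕ} (b : Fin s → (Fin N → ℂ) → ℂ) (q : Fin N → ℂ) (k : Option (Fin s)) (z : ℂ) :
    ch (mp fun k => b k q) k () z = ch b k q z := by
  cases k <;> rfl

theorem loc_eq {N s : ℕ} (b : Fin s → (Fin N → ℂ) → ℂ) (q : Fin N → ℂ) (k : Option (Fin s))
    (p : ℂ × ℂ) : loc (mp fun k => b k q) k () p = loc b k q p := by
  cases k <;> rfl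

theorem cr_smul_self (a : ℂ) (v : ℂ × ℂ) : cr (a • v) v = 0 := by
  unfold cr
  simp only [Prod.smul_fst, Prod.smul_snd, smul_eq_mul]
  ring

theorem par_of_cr {N s : ℕ} (b : Fin s → (Fin N → ℂ) → ℂ) (q : Fin N → ℂ) (k : Option (Fin s))
    {v : ℂ × ℂ} (h : cr v (ch b k q 0) = 0) : ∃ a : ℂ, v = a • ch b k q 0 := by
  unfold cr at h
  cases k with
  | none =>
    simp only [ch] at h ⊢
    refine ⟨v.1, ?_⟩
    have h2 : v.2 = 0 := by linear_combination -h
    ext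
    · simp
    · simp [h2]
  | some k =>
    simp only [ch] at h ⊢
    refine ⟨v.2, ?_⟩
    have h2 : v.1 = v.2 * (b k q + 0) := by linear_combination h
    ext
    · simpa using h2
    · simp

theorem mk_of (hLAM : StLAM) {d n s : ℕ} {S₀ : BS d n} {S : Sys d (n + s) s} (hE : Ext S₀ S)
    {q : Fin (n + s) → ℂ} (hq : q ∈ S.U) : Mk S₀ (xp q) s S.per (fun k => S.b k q) where
  xU := hE.U q hq
  pn := hE.pn
  pp := S.hper
  cyc := by
    intro k
    obtain ⟨a, z', _, hz', h⟩ := S.contr q hq k 0 (by simpa using S.hr₀ k)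
    have hz0 : z' = 0 := by simpa using hz'
    rw [hz0, hE.co q hq] at h
    rw [ch_eq, h]
    exact cr_smul_self _ _
  mul := by
    intro k
    have h1 := (hLAM d (n + s) s S).2.2.1 k q hq
    have h2 : ret (S₀.co (xp q)) (mp fun k => S.b k q) k (S.per k) = S.hk k q := by
      funext z
      unfold ret Sys.hk Sys.F Sys.cht
      rw [ch_eq, loc_eq, hE.co q hq]
    rw [h2]
    exact lt_of_le_of_lt h1 S.hθ
  dis := by
    intro k k' m h
    rw [ch_eq, ch_eq] at h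
    obtain ⟨a, ha⟩ := par_of_cr S.b q k' h
    rw [← hE.co q hq] at ha
    exact S.sep q hq k k' 0 0 a m (by simpa using S.hr₀ k) (by simpa using S.hr₀ k') ha

theorem task (hSTART : StSTART) (hMARK : StMARK) (hTRF : StTRF) (hMINP : StMINP) (hNUM : StNUM)
    (hALLC : StALLC) (hTOP : StTOP) (hER : StER) (hLAM : StLAM) (hKOE : StKOE) : StSEL := by
  classical
  intro d n l S₀ e hH hsmall ε hε
  -- start
  have hP0 : ∀ ε : ℝ, 0 < ε → Cf S₀ e 0 (D0 d l 0) ε := by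
    intro ε hε
    obtain ⟨x₁, hx₁, hx₁d, hv⟩ := hsmall (ε / 2) (by linarith)
    obtain ⟨s, S, KK, y, h1, h2, h3, h4, h5⟩ := hSTART d n l S₀ e hH x₁ hx₁ (ε / 2) (by linarith)
    have h := Cf_of hNUM hER (ε := ε) h1 h2 (by
        have : xp (yx y) - S₀.xT = (xp (yx y) - x₁) + (x₁ - S₀.xT) := by abel
        rw [this]
        exact lt_of_le_of_lt (norm_add_le _ _) (by linarith)) (by
        refine h4.trans ?_
        refine (add_le_add_left hv _).trans ?_
        rw [← ENNReal.ofReal_add (by linarith) (by linarith)]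
        apply ENNReal.ofReal_le_ofReal
        linarith) h5
    simpa using h
  -- the maximal number
  set P : ℕ → Prop := fun m => ∀ ε : ℝ, 0 < ε → Cf S₀ e m (D0 d l m) ε with hP
  set m := Nat.findGreatest P (2 * d - 2) with hm
  have hPm : P m := Nat.findGreatest_spec (m := 0) (Nat.zero_le _) hP0
  have hmle : m ≤ 2 * d - 2 := Nat.findGreatest_le _
  have hgt : ∀ k, m < k → k ≤ 2 * d - 2 → ¬ P k := fun k h1 h2 =>
    Nat.findGreatest_is_greatest h1 h2
  rcases hmle.lt_or_eq with hlt | heq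
  · exfalso
    -- least number of missing rows
    have hex : ∃ D, ∀ ε : ℝ, 0 < ε → Cf S₀ e m D ε := ⟨_, hPm⟩
    set D := Nat.find hex with hD
    have hDs : ∀ ε : ℝ, 0 < ε → Cf S₀ e m D ε := Nat.find_spec hex
    have hDm : ∀ D' < D, ¬ ∀ ε : ℝ, 0 < ε → Cf S₀ e m D' ε := fun D' h => Nat.find_min hex h
    have key : ∀ m' D', (¬ ∀ ε : ℝ, 0 < ε → Cf S₀ e m' D' ε) →
        ∀ᶠ ε in 𝓝[>] (0 : ℝ), ¬ Cf S₀ e m' D' ε := by
      intro m' D' h
      push Not at h
      obtain ⟨ε₀, hε₀, h⟩ := h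
      filter_upwards [Ioo_mem_nhdsGT hε₀] with ε' hε' hc
      exact h (hc.mono hε'.2.le)
    have e1 : ∀ᶠ ε in 𝓝[>] (0 : ℝ), ∀ m' ∈ Finset.range (2 * d - 2 + 1), m < m' →
        ¬ Cf S₀ e m' (D0 d l m') ε := by
      rw [Filter.eventually_all_finset]
      intro m' hm'
      by_cases h : m < m'
      · have := key m' _ (hgt m' h (by rw [Finset.mem_range] at hm'; omega))
        filter_upwards [this] with ε' h' _
        exact h'
      · exact Eventually.of_forall fun ε' h' => absurd h' h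
    have e2 : ∀ᶠ ε in 𝓝[>] (0 : ℝ), 0 < D → ¬ Cf S₀ e m (D - 1) ε := by
      by_cases h : 0 < D
      · filter_upwards [key m (D - 1) (hDm (D - 1) (by omega))] with ε' h' _
        exact h'
      · exact Eventually.of_forall fun ε' h' => absurd h' h
    obtain ⟨ε', ⟨he1, he2⟩, hε'⟩ := ((e1.and e2).and self_mem_nhdsWithin).exists
    have hε'0 : 0 < ε' := hε'
    obtain ⟨ε₁, hε₁, hmin⟩ := hMINP d n l S₀ e hH ε' ε' hε'0 hε'0
    have hρ : 0 < S₀.ρ := S₀.hρ
    obtain ⟨s, S, KK, A, ks, ls, R, y, h1, h2, h3, h4, h5, h6, h7⟩ :=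
      hDs (min ε₁ (S₀.ρ / 2)) (lt_min hε₁ (by linarith))
    have hq : yx y ∈ S.U := h6.1.xU
    have hMk := mk_of hLAM h1 hq
    obtain ⟨S', q₀, g1, g2, g3, g4, g5, g6, g7, g8⟩ := hMARK d n S₀ (S₀.ρ / 2) (by linarith)
      (xp (yx y)) (by
        rw [mem_closedBall, dist_eq_norm]
        exact (h4.trans_le (min_le_right _ _)).le) s S.per _ hMk
    obtain ⟨KK', hKK'⟩ := hKOE d (n + s) s S'
    let y' : Ix d (n + s) s → ℂ := Sum.elim q₀ (Sum.elim (yc y) (fun k => yk y (some k)))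
    have hyx : yx y' = q₀ := rfl
    have hyc : yc y = yc y' := rfl
    have hyk : yk y = yk y' := by
      funext k
      cases k <;> rfl
    obtain ⟨t1, t2, t3⟩ := hTRF d n s l S₀ S S' h1 g1 g3.symm (yx y) q₀ hq g4 g5.symm
      (fun k => (g7 k).symm)
    have hG' := t3 KK KK' e A ks ls R y y' hH.ed h2 hKK' rfl rfl hyc hyk h6
    obtain ⟨A', ks', ls', z, z1, z2, z3⟩ := hmin s S' KK' A ks ls R y' g1 g2 hKK'
      (fun k => by rw [hyx, g7, g6]) (by
        rw [hyx]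
        exact g8) (by
        rw [hyx, g5]
        exact h4.trans_le (min_le_left _ _)) (by
        rw [hyx, ← t1]
        exact h5.trans (ENNReal.ofReal_le_ofReal (min_le_left _ _))) hG' (by rw [h3]; exact hlt)
    rcases z3 with ⟨z4, z5⟩ | ⟨z4, z5⟩
    · have hA' : A'.card ≤ 2 * d - 2 := by
        have := Finset.card_le_univ A'
        simpa using this
      exact he1 A'.card (Finset.mem_range.2 (by omega)) (by omega) (Cf_of hNUM hER g1 hKK' z1 z2 z5)
    · rcases Nat.eq_zero_or_pos D with hD0 | hDpos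
      · have := R_le z5
        rw [hD0] at h7
        omega
      · apply he2 hDpos
        refine ⟨s, S', KK', A', ks', ls', R + 1, z, g1, hKK', by omega, z1, z2, z5, ?_⟩
        omega
  · -- all critical points are attracted
    obtain ⟨s, S, KK, A, ks, ls, R, y, h1, h2, h3, h4, h5, h6, h7⟩ := hPm ε hε
    have hA : A = Finset.univ := by
      apply Finset.eq_univ_of_card
      rw [h3, heq, Fintype.card_fin]
    subst hA
    have hq : yx y ∈ S.U := h6.1.xU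
    refine ⟨xp (yx y), h1.U _ hq, h4, ?_⟩
    rw [← h1.co _ hq]
    exact hTOP d (n + s) s S (yx y) hq (hALLC d (n + s) s S ks ls y h6.1)

end Pool.Agent.W40.RQSEL
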